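import Pool.Agent.Helper37.AG.One

/-!
# A polygon with holes: local structure
-/

set_option autoImplicit false

namespace Pool.Agent.Helper37.AG

open Pool.Agent.Helper20.Flip Pool.Agent.Helper97.UDP Pool.Agent.Helper94.UR Topology

variable {h : ℕ} {k : Fin (h + 1) → ℕ}

/-- The data of a polygon with `h` holes: `v 0` is the outer polygon, the `v c` with `c ≠ 0` are
the boundaries of the holes. -/
structure IsHoled (v : (c : Fin (h + 1)) → ZMod (k c) → Pt) : Prop where
  simple : ∀ c, IsSimple (v c)
  inside : ∀ c, c ≠ 0 → region (v c) ⊆ interior (region (v 0))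
  disj : ∀ c c', c ≠ 0 → c' ≠ 0 → c ≠ c' → Disjoint (region (v c)) (region (v c'))

/-- The polygon with holes as a point set. -/
def Holed (v : (c : Fin (h + 1)) → ZMod (k c) → Pt) : Set Pt :=
  region (v 0) \ ⋃ (c : Fin (h + 1)) (_ : c ≠ 0), interior (region (v c))

variable {v : (c : Fin (h + 1)) → ZMod (k c) → Pt}

theorem mem_Holed (p : Pt) :
    p ∈ Holed v ↔ p ∈ region (v 0) ∧ ∀ c, c ≠ 0 → p ∉ interior (region (v c)) := by
  simp [Holed]

theorem curve_subset_region {n : ℕ} (V : ZMod n → Pt) : curve V ⊆ region V := fun _ hp => Or.inl hp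

theorem Holed_closed (H : IsHoled v) : IsClosed (Holed v) := by
  have h1 : IsOpen (⋃ (c : Fin (h + 1)) (_ : c ≠ 0), interior (region (v c))) :=
    isOpen_iUnion fun c => isOpen_iUnion fun _ => isOpen_interior
  exact (region_closed (H.simple 0)).sdiff h1

theorem Holed_compact (H : IsHoled v) : IsCompact (Holed v) :=
  (region_compact (H.simple 0)).of_isClosed_subset (Holed_closed H) Set.diff_subset

/-- a point on a hole is in the interior of the outer region -/
theorem hole_inside (H : IsHoled v) {c : Fin (h + 1)} (hc : c ≠ 0) {p : Pt}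
    (hp : p ∈ region (v c)) : p ∈ region (v 0) ∧ p ∉ curve (v 0) := by
  have h1 := H.inside c hc hp
  rw [interior_region (H.simple 0)] at h1
  exact h1

theorem curves_disjoint (H : IsHoled v) {c c' : Fin (h + 1)} (hc : c ≠ c') {p : Pt}
    (hp : p ∈ curve (v c)) (hp' : p ∈ curve (v c')) : False := by
  by_cases h0 : c = 0
  · subst h0
    exact (hole_inside H hc.symm (Or.inl hp')).2 hp
  · by_cases h1 : c' = 0
    · subst h1
      exact (hole_inside H h0 (Or.inl hp)).2 hp'
    · exact Set.disjoint_left.1 (H.disj c c' h0 h1 hc) (Or.inl hp) (Or.inl hp')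

theorem vertex_mem_curve {n : ℕ} (V : ZMod n → Pt) (i : ZMod n) : V i ∈ curve V :=
  ⟨i, left_mem_segment ℝ _ _⟩

/-- all vertices are different -/
theorem vertex_injective (H : IsHoled v) {c c' : Fin (h + 1)} {i : ZMod (k c)} {j : ZMod (k c')}
    (hij : v c i = v c' j) : (⟨c, i⟩ : Σ c, ZMod (k c)) = ⟨c', j⟩ := by
  by_cases hc : c = c'
  · subst hc
    rw [injective_of (H.simple c) hij]
  · exact (curves_disjoint H hc (vertex_mem_curve _ i) (by
      rw [hij]; exact vertex_mem_curve _ j)).elim

/-- two different edges meet only in a common end point -/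
theorem all_edges_meet (H : IsHoled v) {c c' : Fin (h + 1)} {i : ZMod (k c)} {j : ZMod (k c')}
    (hne : (⟨c, i⟩ : Σ c, ZMod (k c)) ≠ ⟨c', j⟩) {X : Pt}
    (hi : X ∈ segment ℝ (v c i) (v c (i + 1))) (hj : X ∈ segment ℝ (v c' j) (v c' (j + 1))) :
    (X = v c i ∨ X = v c (i + 1)) ∧ (X = v c' j ∨ X = v c' (j + 1)) := by
  by_cases hc : c = c'
  · subst hc
    have hij : i ≠ j := fun e => hne (by rw [e])
    exact edges_meet (H.simple c) hij hi hj
  · exact (curves_disjoint H hc ⟨i, hi⟩ ⟨j, hj⟩).elim

/-- Near a point which is on no curve membership in the polygon is constant. -/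
theorem Holed_nhds (H : IsHoled v) {x : Pt} (hx : ∀ c, x ∉ curve (v c)) :
    ∀ᶠ q in 𝓝 x, ((∀ c, q ∉ curve (v c)) ∧ (q ∈ Holed v ↔ x ∈ Holed v)) := by
  have h1 : ∀ᶠ q in 𝓝 x, ∀ c, (q ∉ curve (v c) ∧ (q ∈ region (v c) ↔ x ∈ region (v c))) :=
    Filter.eventually_all.2 fun c => region_nhds (H.simple c) (hx c)
  filter_upwards [h1] with q hq
  refine ⟨fun c => (hq c).1, ?_⟩
  rw [mem_Holed, mem_Holed, (hq 0).2]
  refine and_congr_right fun _ => forall_congr' fun c => imp_congr_right fun _ => ?_
  rw [interior_region (H.simple c), Set.mem_sdiff, Set.mem_sdiff, (hq c).2]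
  simp [(hq c).1, hx c]

/-- A preconnected set which meets no curve is inside or outside of the polygon. -/
theorem Holed_iff_of_preconnected (H : IsHoled v) {S : Set Pt} (hS : IsPreconnected S)
    (hd : ∀ p ∈ S, ∀ c, p ∉ curve (v c)) {p q : Pt} (hp : p ∈ S) (hq : q ∈ S) :
    p ∈ Holed v ↔ q ∈ Holed v := by
  have h1 : ∀ c, (p ∈ region (v c) ↔ q ∈ region (v c)) := fun c =>
    region_iff_of_preconnected hS (fun r hr => hd r hr c) hp hq
  rw [mem_Holed, mem_Holed, h1 0]
  refine and_congr_right fun _ => forall_congr' fun c => imp_congr_right fun _ => ?_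
  rw [interior_region (H.simple c), Set.mem_sdiff, Set.mem_sdiff, h1 c]
  simp [hd p hp c, hd q hq c]

/-- There is a sign for every boundary polygon such that near every inner point of an edge the
polygon with holes is the closed half plane on this side of the edge. -/
theorem exists_sign (H : IsHoled v) (c : Fin (h + 1)) :
    ∃ s : ℝ, (s = 1 ∨ s = -1) ∧ ∀ (i : ZMod (k c)) (t : ℝ), 0 < t → t < 1 →
      ∀ᶠ q in 𝓝 (ept (v c) i t),
        (q ∈ Holed v ↔ 0 ≤ s * cross (v c i) (v c (i + 1)) q) := by
  obtain ⟨s, hs, hin, hout⟩ := exists_in_side (H.simple c)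
  by_cases hc : c = 0
  · subst hc
    refine ⟨s, hs, fun i t ht ht' => ?_⟩
    have hx : ept (v 0) i t ∈ curve (v 0) := by
      refine ⟨i, ?_⟩
      rw [segment_eq_image']
      exact ⟨t, ⟨ht.le, ht'.le⟩, rfl⟩
    have h1 : ∀ᶠ q in 𝓝 (ept (v 0) i t), ∀ c, c ≠ 0 → q ∉ region (v c) := by
      rw [Filter.eventually_all]
      intro c
      by_cases hc : c = 0
      · exact Filter.Eventually.of_forall fun q h => absurd hc h
      · have h2 : ept (v 0) i t ∈ (region (v c))ᶜ := fun h => (hole_inside H hc h).2 hx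
        filter_upwards [(region_closed (H.simple c)).isOpen_compl.mem_nhds h2] with q hq _
        exact hq
    filter_upwards [h1, near_edge (H.simple 0) hs hin hout i ht ht'] with q hq1 hq2
    rw [mem_Holed, ← hq2.1]
    exact ⟨fun h => h.1, fun h => ⟨h, fun c hc hi => hq1 c hc (interior_subset hi)⟩⟩
  · refine ⟨-s, ?_, fun i t ht ht' => ?_⟩
    · rcases hs with rfl | rfl
      · right; rfl
      · left; norm_num
    have hx : ept (v c) i t ∈ curve (v c) := by
      refine ⟨i, ?_⟩
      rw [segment_eq_image']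
      exact ⟨t, ⟨ht.le, ht'.le⟩, rfl⟩
    have h0 : ∀ᶠ q in 𝓝 (ept (v c) i t), q ∈ region (v 0) := by
      have h2 := H.inside c hc (Or.inl hx)
      filter_upwards [isOpen_interior.mem_nhds h2] with q hq
      exact interior_subset hq
    have h1 : ∀ᶠ q in 𝓝 (ept (v c) i t), ∀ c', c' ≠ 0 → c' ≠ c → q ∉ region (v c') := by
      rw [Filter.eventually_all]
      intro c'
      by_cases hc' : c' = 0
      · exact Filter.Eventually.of_forall fun q h => absurd hc' h
      · by_cases hcc : c' = c
        · exact Filter.Eventually.of_forall fun q _ h => absurd hcc h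
        · have h2 : ept (v c) i t ∈ (region (v c'))ᶜ := fun h =>
            Set.disjoint_left.1 (H.disj c' c hc' hc hcc) h (Or.inl hx)
          filter_upwards [(region_closed (H.simple c')).isOpen_compl.mem_nhds h2] with q hq _ _
          exact hq
    filter_upwards [h0, h1, near_edge (H.simple c) hs hin hout i ht ht'] with q hq0 hq1 hq2
    rw [mem_Holed]
    have e1 : (q ∈ region (v 0) ∧ ∀ c, c ≠ 0 → q ∉ interior (region (v c))) ↔
        q ∉ interior (region (v c)) := by
      constructor
      · rintro ⟨-, h⟩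
        exact h c hc
      · intro h
        refine ⟨hq0, fun c' hc' hi => ?_⟩
        by_cases hcc : c' = c
        · subst hcc
          exact h hi
        · exact hq1 c' hc' hcc (interior_subset hi)
    rw [e1, interior_region (H.simple c), Set.mem_sdiff, hq2.1, hq2.2]
    rw [not_and, not_not]
    constructor
    · intro h
      by_contra hneg
      rw [not_le, neg_mul] at hneg
      have h3 := h (by linarith)
      rw [h3, mul_zero, neg_zero] at hneg
      exact lt_irrefl _ hneg
    · intro h1 h2
      rw [neg_mul] at h1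
      have h3 : s * cross (v c i) (v c (i + 1)) q = 0 := by linarith
      rcases mul_eq_zero.1 h3 with h4 | h4
      · rcases hs with rfl | rfl <;> norm_num at h4
      · exact h4

end Pool.Agent.Helper37.AG
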