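import Pool.Agent.Helper94.UR.Outer

/-!
# One simple polygon: the closed region, its interior and the two sides
-/

set_option autoImplicit false

namespace Pool.Agent.Helper37.AG

open Pool.Agent.Helper20.Flip Pool.Agent.Helper97.UDP Pool.Agent.Helper94.UR Topology

variable {n : ℕ} {V : ZMod n → Pt}

theorem neZero_of (hV : IsSimple V) : NeZero n := ⟨by have := hV.1; omega⟩

/-- the vertices of a simple polygon are different -/
theorem injective_of (hV : IsSimple V) : Function.Injective V := by
  intro i j hij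
  by_contra hne
  rcases hV.2.2 i j hne (V i) (left_mem_segment ℝ _ _)
    (by rw [hij]; exact left_mem_segment ℝ _ _) with ⟨h1, h2⟩ | ⟨h1, -⟩
  · exact hV.2.1 i (by rw [← h1]; exact h2)
  · exact hV.2.1 j (by rw [← h1]; exact hij.symm)

/-- two different edges of a simple polygon meet only in a common end point -/
theorem edges_meet (hV : IsSimple V) {i j : ZMod n} (hij : i ≠ j) {X : Pt}
    (hi : X ∈ segment ℝ (V i) (V (i + 1))) (hj : X ∈ segment ℝ (V j) (V (j + 1))) :
    (X = V i ∨ X = V (i + 1)) ∧ (X = V j ∨ X = V (j + 1)) := by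
  rcases hV.2.2 i j hij X hi hj with ⟨h1, h2⟩ | ⟨h1, h2⟩
  · exact ⟨Or.inr (by rw [← h1]; exact h2), Or.inl h2⟩
  · exact ⟨Or.inl h2, Or.inr (by rw [← h1]; exact h2)⟩

theorem curve_closed (hV : IsSimple V) : IsClosed (curve V) := by
  have := neZero_of hV
  exact isClosed_curve V

theorem region_closed (hV : IsSimple V) : IsClosed (region V) := by
  have := neZero_of hV
  exact isOpen_compl_iff.1 (isOpen_compl_region V)

/-- A preconnected set which does not meet the curve is inside or outside. -/
theorem region_iff_of_preconnected {S : Set Pt} (hS : IsPreconnected S) (hd : S ⊆ (curve V)ᶜ)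
    {p q : Pt} (hp : p ∈ S) (hq : q ∈ S) : p ∈ region V ↔ q ∈ region V := by
  have h1 : q ∈ connectedComponentIn (curve V)ᶜ p := hS.subset_connectedComponentIn hp hd hq
  have h2 := connectedComponentIn_eq h1
  have hpc : p ∉ curve V := hd hp
  have hqc : q ∉ curve V := hd hq
  constructor
  · rintro (h | h)
    · exact absurd h hpc
    · right
      rw [← h2]
      exact h
  · rintro (h | h)
    · exact absurd h hqc
    · right
      rw [h2]
      exact h

/-- near a point which is not on the curve the region is constant -/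
theorem region_nhds (hV : IsSimple V) {x : Pt} (hx : x ∉ curve V) :
    ∀ᶠ q in 𝓝 x, (q ∉ curve V ∧ (q ∈ region V ↔ x ∈ region V)) := by
  have ho : IsOpen (connectedComponentIn (curve V)ᶜ x) :=
    (curve_closed hV).isOpen_compl.connectedComponentIn
  have hx' : x ∈ connectedComponentIn (curve V)ᶜ x := mem_connectedComponentIn hx
  filter_upwards [ho.mem_nhds hx'] with q hq
  refine ⟨connectedComponentIn_subset _ _ hq, ?_⟩
  exact region_iff_of_preconnected isPreconnected_connectedComponentIn
    (connectedComponentIn_subset _ _) hq hx'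

theorem curve_subset_closure (hV : IsSimple V) : curve V ⊆ closure (region V)ᶜ := by
  rintro x ⟨i, hi⟩
  have h1 : openSegment ℝ (V i) (V (i + 1)) ⊆ closure (region V)ᶜ := by
    intro y hy
    rw [openSegment_eq_image'] at hy
    obtain ⟨t, ⟨h0, h1⟩, rfl⟩ := hy
    exact ept_mem_closure hV i h0 h1
  have h2 : segment ℝ (V i) (V (i + 1)) ⊆ closure (region V)ᶜ := by
    rw [← closure_openSegment]
    exact closure_minimal h1 isClosed_closure
  exact h2 hi

theorem interior_region (hV : IsSimple V) : interior (region V) = region V \ curve V := by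
  ext x
  constructor
  · intro hx
    refine ⟨interior_subset hx, fun hc => ?_⟩
    have h := curve_subset_closure hV hc
    rw [closure_compl] at h
    exact h hx
  · rintro ⟨h1, h2⟩
    rw [mem_interior_iff_mem_nhds]
    filter_upwards [region_nhds hV h2] with q hq
    exact hq.2.2 h1

theorem edge_sq_pos {a b : Pt} (h : a ≠ b) : 0 < (b.1 - a.1) ^ 2 + (b.2 - a.2) ^ 2 := by
  rcases eq_or_ne (b.1 - a.1) 0 with h1 | h1
  · rcases eq_or_ne (b.2 - a.2) 0 with h2 | h2
    · exact absurd (Prod.ext (by linarith) (by linarith)) h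
    · have := sq_pos_of_ne_zero h2
      nlinarith [sq_nonneg (b.1 - a.1)]
  · have := sq_pos_of_ne_zero h1
    nlinarith [sq_nonneg (b.2 - a.2)]

theorem curve_norm_le (hV : IsSimple V) : ∃ R : ℝ, 0 ≤ R ∧ ∀ p ∈ curve V, ‖p‖ ≤ R := by
  have := neZero_of hV
  refine ⟨∑ i, ‖V i‖, Finset.sum_nonneg fun i _ => norm_nonneg _, ?_⟩
  rintro p ⟨i, hi⟩
  have h1 : ∀ j, V j ∈ Metric.closedBall (0 : Pt) (∑ i, ‖V i‖) := by
    intro j
    rw [mem_closedBall_zero_iff]
    exact Finset.single_le_sum (f := fun i => ‖V i‖) (fun i _ => norm_nonneg _)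
      (Finset.mem_univ j)
  have h2 := (convex_closedBall (0 : Pt) (∑ i, ‖V i‖)).segment_subset (h1 i) (h1 (i + 1)) hi
  rwa [mem_closedBall_zero_iff] at h2

theorem region_bdd (hV : IsSimple V) : Bornology.IsBounded (region V) := by
  obtain ⟨R, hR, hb⟩ := curve_norm_le hV
  rw [Metric.isBounded_iff_subset_closedBall (0 : Pt)]
  refine ⟨R, fun p hp => ?_⟩
  rw [mem_closedBall_zero_iff]
  by_contra hlt
  rw [not_le] at hlt
  have hpc : p ∉ curve V := fun h => absurd (hb p h) (not_le.2 hlt)
  rcases hp with hp | hp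
  · exact hpc hp
  · -- the ray from `p` away from the origin avoids the curve
    have hray : IsPreconnected ((fun t : ℝ => t • p) '' Set.Ici 1) := by
      apply IsPreconnected.image (convex_Ici 1).isPreconnected
      exact (continuous_id.smul continuous_const).continuousOn
    have hsub : (fun t : ℝ => t • p) '' Set.Ici 1 ⊆ (curve V)ᶜ := by
      rintro y ⟨t, ht, rfl⟩ hy
      have h1 := hb _ hy
      have ht1 : (1 : ℝ) ≤ t := ht
      simp only [norm_smul, Real.norm_eq_abs] at h1
      rw [abs_of_nonneg (by linarith)] at h1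
      nlinarith [norm_nonneg p]
    have hin : (fun t : ℝ => t • p) '' Set.Ici 1 ⊆ connectedComponentIn (curve V)ᶜ p := by
      apply hray.subset_connectedComponentIn _ hsub
      exact ⟨1, by simp, by simp⟩
    have hbd := hp.subset hin
    rw [Metric.isBounded_iff_subset_closedBall (0 : Pt)] at hbd
    obtain ⟨r, hr⟩ := hbd
    have hp0 : 0 < ‖p‖ := lt_of_le_of_lt hR hlt
    have h2 : ∀ t : ℝ, 1 ≤ t → t * ‖p‖ ≤ r := by
      intro t ht
      have h3 := hr ⟨t, ht, rfl⟩
      rw [mem_closedBall_zero_iff] at h3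
      simp only [norm_smul, Real.norm_eq_abs] at h3
      rwa [abs_of_nonneg (by linarith)] at h3
    have h4 := h2 (max 1 ((r + 1) / ‖p‖)) (le_max_left _ _)
    have h5 : (r + 1) / ‖p‖ * ‖p‖ ≤ max 1 ((r + 1) / ‖p‖) * ‖p‖ :=
      mul_le_mul_of_nonneg_right (le_max_right _ _) hp0.le
    rw [div_mul_cancel₀ _ hp0.ne'] at h5
    linarith

theorem region_compact (hV : IsSimple V) : IsCompact (region V) :=
  Metric.isCompact_of_isClosed_isBounded (region_closed hV) (region_bdd hV)

theorem cross_nrm_pos (V : ZMod n → Pt) (i : ZMod n) (h : V i ≠ V (i + 1)) :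
    0 < cross (V i) (V (i + 1)) (V i + nrm V i) := by
  have h1 : cross (V i) (V (i + 1)) (V i + nrm V i) =
      ((V (i + 1)).1 - (V i).1) ^ 2 + ((V (i + 1)).2 - (V i).2) ^ 2 := by
    unfold cross nrm
    simp only [Prod.fst_add, Prod.snd_add]
    ring
  rw [h1]
  exact edge_sq_pos h

/-- one side is in the region, the other side is outside -/
theorem exists_in_side (hV : IsSimple V) :
    ∃ s : ℝ, (s = 1 ∨ s = -1) ∧ (∀ p ∈ sideSet V s, p ∈ region V) ∧
      ∀ p ∈ sideSet V (-s), p ∉ region V := by
  have := neZero_of hV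
  obtain ⟨s, hs, hout⟩ := exists_out_side hV
  -- a point on the outer side
  obtain ⟨q, hq⟩ : ∃ q, q ∈ sideSet V s := by
    have hc := cross_nrm_pos V 0 (hV.2.1 0)
    have hu : 0 < s * cross (V 0) (V (0 + 1)) (V 0 + s • nrm V 0) := by
      have h1 : s * cross (V 0) (V (0 + 1)) (V 0 + s • nrm V 0) =
          s ^ 2 * cross (V 0) (V (0 + 1)) (V 0 + nrm V 0) := by
        simp only [cross, Prod.fst_add, Prod.snd_add, Prod.smul_fst, Prod.smul_snd, smul_eq_mul]
        ring
      rw [h1]
      have h2 : s ^ 2 = 1 := by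
        rcases hs with rfl | rfl <;> norm_num
      rw [h2, one_mul]
      exact hc
    have := eventually_side hV 0 (t := 1 / 2) (by norm_num) (by norm_num) hu
    obtain ⟨τ, hτ⟩ := this.exists
    exact ⟨_, hτ⟩
  refine ⟨-s, ?_, ?_, ?_⟩
  · rcases hs with rfl | rfl
    · right; rfl
    · left; norm_num
  · intro p hp
    by_contra hpr
    have hqr := hout q hq
    rcases hs with rfl | rfl
    · exact sides_ne hV hq hp (same_outer hV hqr hpr)
    · rw [neg_neg] at hp
      exact sides_ne hV hp hq (same_outer hV hpr hqr)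
  · intro p hp
    rw [neg_neg] at hp
    exact hout p hp

/-- Near an inner point of an edge the region is the half plane on the inner side. -/
theorem near_edge (hV : IsSimple V) {s : ℝ} (hs : s = 1 ∨ s = -1)
    (hin : ∀ p ∈ sideSet V s, p ∈ region V) (hout : ∀ p ∈ sideSet V (-s), p ∉ region V)
    (i : ZMod n) {t : ℝ} (ht : 0 < t) (ht' : t < 1) :
    ∀ᶠ q in 𝓝 (ept V i t), ((q ∈ region V ↔ 0 ≤ s * cross (V i) (V (i + 1)) q) ∧
      (q ∈ curve V ↔ cross (V i) (V (i + 1)) q = 0)) := by
  obtain ⟨r, hr, hball⟩ := exists_halfball hV i ht ht'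
  have hd := edge_sq_pos (hV.2.1 i)
  set D : ℝ := ((V (i + 1)).1 - (V i).1) ^ 2 + ((V (i + 1)).2 - (V i).2) ^ 2 with hD
  -- the parameter of the projection to the line
  let u : Pt → ℝ := fun q => ((q.1 - (V i).1) * ((V (i + 1)).1 - (V i).1) +
    (q.2 - (V i).2) * ((V (i + 1)).2 - (V i).2)) / D
  have hucont : Continuous u := by
    show Continuous (fun q : Pt => ((q.1 - (V i).1) * ((V (i + 1)).1 - (V i).1) +
      (q.2 - (V i).2) * ((V (i + 1)).2 - (V i).2)) / D)
    exact (((continuous_fst.sub continuous_const).mul continuous_const).add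
      ((continuous_snd.sub continuous_const).mul continuous_const)).div_const D
  have hut : u (ept V i t) = t := by
    show ((((ept V i t).1 - (V i).1) * ((V (i + 1)).1 - (V i).1) +
      ((ept V i t).2 - (V i).2) * ((V (i + 1)).2 - (V i).2)) / D) = t
    rw [div_eq_iff hd.ne', hD]
    simp only [ept, Prod.fst_add, Prod.snd_add, Prod.smul_fst, Prod.smul_snd, smul_eq_mul,
      Prod.fst_sub, Prod.snd_sub]
    ring
  have hev : ∀ᶠ q in 𝓝 (ept V i t), 0 < u q ∧ u q < 1 := by
    have h1 : Set.Ioo (0 : ℝ) 1 ∈ 𝓝 (u (ept V i t)) := by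
      rw [hut]
      exact Ioo_mem_nhds ht ht'
    exact hucont.continuousAt h1
  filter_upwards [Metric.ball_mem_nhds (ept V i t) hr, hev] with q hq hu
  have hside : ∀ σ : ℝ, 0 < σ * cross (V i) (V (i + 1)) q → q ∈ sideSet V σ := by
    intro σ hσ
    refine ⟨i, t, ht, ht', hσ, fun τ h1 h2 => ?_⟩
    have hc : cross (V i) (V (i + 1)) q ≠ 0 := by
      intro h0
      rw [h0, mul_zero] at hσ
      exact lt_irrefl _ hσ
    apply hball
    · rw [Metric.mem_ball, dist_eq_norm, add_sub_cancel_left, norm_smul, Real.norm_eq_abs,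
        abs_of_pos h1]
      rw [Metric.mem_ball, dist_eq_norm] at hq
      nlinarith [norm_nonneg (q - ept V i t)]
    · have h3 : cross (V i) (V (i + 1)) (ept V i t + τ • (q - ept V i t)) =
          τ * cross (V i) (V (i + 1)) q := by
        simp only [cross, ept, Prod.fst_add, Prod.snd_add, Prod.smul_fst, Prod.smul_snd,
          smul_eq_mul, Prod.fst_sub, Prod.snd_sub]
        ring
      rw [h3]
      exact mul_ne_zero h1.ne' hc
  by_cases hc : cross (V i) (V (i + 1)) q = 0
  · have hqc : q ∈ curve V := by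
      refine ⟨i, ?_⟩
      rw [segment_eq_image']
      refine ⟨u q, ⟨hu.1.le, hu.2.le⟩, ?_⟩
      have hc' : ((V (i + 1)).1 - (V i).1) * (q.2 - (V i).2) =
          ((V (i + 1)).2 - (V i).2) * (q.1 - (V i).1) := by
        unfold cross at hc
        linarith
      have e1 : u q * ((V (i + 1)).1 - (V i).1) = q.1 - (V i).1 := by
        show (((q.1 - (V i).1) * ((V (i + 1)).1 - (V i).1) +
          (q.2 - (V i).2) * ((V (i + 1)).2 - (V i).2)) / D) * ((V (i + 1)).1 - (V i).1) = _
        rw [div_mul_eq_mul_div, div_eq_iff hd.ne', hD]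
        linear_combination ((V (i + 1)).2 - (V i).2) * hc'
      have e2 : u q * ((V (i + 1)).2 - (V i).2) = q.2 - (V i).2 := by
        show (((q.1 - (V i).1) * ((V (i + 1)).1 - (V i).1) +
          (q.2 - (V i).2) * ((V (i + 1)).2 - (V i).2)) / D) * ((V (i + 1)).2 - (V i).2) = _
        rw [div_mul_eq_mul_div, div_eq_iff hd.ne', hD]
        linear_combination -((V (i + 1)).1 - (V i).1) * hc'
      apply Prod.ext
      · simp only [Prod.fst_add, Prod.smul_fst, smul_eq_mul, Prod.fst_sub]
        rw [e1]; ring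
      · simp only [Prod.snd_add, Prod.smul_snd, smul_eq_mul, Prod.snd_sub]
        rw [e2]; ring
    rw [hc, mul_zero]
    exact ⟨⟨fun _ => le_refl _, fun _ => Or.inl hqc⟩, ⟨fun _ => rfl, fun _ => hqc⟩⟩
  · have hqc : q ∉ curve V := hball q hq hc
    refine ⟨?_, ⟨fun h => absurd h hqc, fun h => absurd h hc⟩⟩
    constructor
    · intro hr
      by_contra hneg
      rw [not_le] at hneg
      exact hout q (hside (-s) (by rw [neg_mul]; linarith)) hr
    · intro hnn
      have hs0 : s ≠ 0 := by
        rcases hs with rfl | rfl <;> norm_num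
      exact hin q (hside s (lt_of_le_of_ne hnn (mul_ne_zero hs0 hc).symm))

end Pool.Agent.Helper37.AG
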